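import Pool.Agent.W642.RS.Stms

set_option autoImplicit false

/-! Crossing lemma for points in convex position. -/

namespace Pool.Agent.W64.RS

open Finset Pool.Agent.W642.RS

variable {n : ℕ}

/-- sets of pairs without alternating pairs are small -/
lemma planar (S : Finset (Fin n)) (Y : Finset (Fin n × Fin n)) (hY : ∀ e ∈ Y, e.1 < e.2)
    (hS : ∀ e ∈ Y, e.1 ∈ S ∧ e.2 ∈ S) (h0 : altPairs Y = ∅) : Y.card ≤ 2 * S.card := by
  classical
  have hno : ∀ e ∈ Y, ∀ f ∈ Y, ¬ Alt e f := by
    intro e he f hf h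
    have h1 : (e, f) ∈ altPairs Y := by
      unfold altPairs
      rw [mem_filter, mem_product]
      exact ⟨⟨he, hf⟩, h⟩
    rw [h0] at h1
    exact absurd h1 (notMem_empty _)
  rw [← card_filter_add_card_filter_not (s := Y) (fun e => ∀ q, (e.1, q) ∈ Y → e.2 ≤ q), two_mul]
  refine Nat.add_le_add ?_ ?_
  · refine card_le_card_of_injOn (fun e => e.1) (fun e he => ?_) ?_
    · exact (hS e (mem_filter.1 he).1).1
    · intro e he f hf hef
      have he' := mem_filter.1 he
      have hf' := mem_filter.1 hf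
      simp only at hef
      have h1 := he'.2 f.2 (by rw [hef]; exact hf'.1)
      have h2 := hf'.2 e.2 (by rw [← hef]; exact he'.1)
      exact Prod.ext hef (le_antisymm h1 h2)
  · refine card_le_card_of_forall_subsingleton
      (fun (e : Fin n × Fin n) (z : Fin n) => (e.1, z) ∈ Y ∧ z < e.2 ∧
        ∀ q, (e.1, q) ∈ Y → q < e.2 → q ≤ z) ?_ ?_
    · intro e he
      obtain ⟨heY, hex⟩ := mem_filter.1 he
      push Not at hex
      obtain ⟨q0, hq0, hq1⟩ := hex
      have hne : (univ.filter fun q : Fin n => (e.1, q) ∈ Y ∧ q < e.2).Nonempty :=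
        ⟨q0, by rw [mem_filter]; exact ⟨mem_univ _, hq0, hq1⟩⟩
      obtain ⟨z, hz, hmax⟩ := exists_max_image _ (fun q : Fin n => q) hne
      rw [mem_filter] at hz
      refine ⟨z, (hS _ hz.2.1).2, hz.2.1, hz.2.2, fun q hq1 hq2 => ?_⟩
      exact hmax q (by rw [mem_filter]; exact ⟨mem_univ _, hq1, hq2⟩)
    · rintro z _ e he f hf
      simp only [Set.mem_ofPred_eq, mem_filter] at he hf
      obtain ⟨⟨heY, _⟩, he1, he2, he3⟩ := he
      obtain ⟨⟨hfY, _⟩, hf1, hf2, hf3⟩ := hf
      rcases lt_trichotomy e.1 f.1 with h | h | h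
      · exact absurd ⟨h, hY _ hf1, hf2⟩ (hno (e.1, z) he1 f hfY)
      · refine Prod.ext h ?_
        rcases lt_trichotomy e.2 f.2 with h' | h' | h'
        · have := hf3 e.2 (by rw [← h]; exact heY) h'
          exact absurd he2 (not_lt.2 this)
        · exact h'
        · have := he3 f.2 (by rw [h]; exact hfY) h'
          exact absurd hf2 (not_lt.2 this)
      · exact absurd ⟨h, hY _ he1, he2⟩ (hno (f.1, z) hf1 e heY)

/-- deletion -/
lemma weak (S : Finset (Fin n)) : ∀ (k : ℕ) (Y : Finset (Fin n × Fin n)), Y.card = k →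
    (∀ e ∈ Y, e.1 < e.2) → (∀ e ∈ Y, e.1 ∈ S ∧ e.2 ∈ S) →
    Y.card ≤ (altPairs Y).card + 2 * S.card := by
  classical
  intro k
  induction k with
  | zero =>
    intro Y hk _ _
    omega
  | succ k ih =>
    intro Y hk hY hS
    rcases (altPairs Y).eq_empty_or_nonempty with h0 | ⟨⟨e, f⟩, hef⟩
    · have := planar S Y hY hS h0
      omega
    · have hef' := hef
      unfold altPairs at hef'
      rw [mem_filter, mem_product] at hef'
      have heY : e ∈ Y := hef'.1.1
      have h1 := ih (Y.erase e) (by rw [card_erase_of_mem heY]; omega)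
        (fun a ha => hY a (mem_of_mem_erase ha)) (fun a ha => hS a (mem_of_mem_erase ha))
      have h2 : (altPairs (Y.erase e)).card < (altPairs Y).card := by
        refine card_lt_card ⟨?_, fun h => ?_⟩
        · intro x hx
          unfold altPairs at hx ⊢
          rw [mem_filter, mem_product] at hx ⊢
          exact ⟨⟨mem_of_mem_erase hx.1.1, mem_of_mem_erase hx.1.2⟩, hx.2⟩
        · have h3 := h hef
          unfold altPairs at h3
          rw [mem_filter, mem_product] at h3
          exact (notMem_erase e Y) h3.1.1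
      rw [card_erase_of_mem heY] at h1
      omega

/-- the number of functions which vanish on `A` -/
lemma count (t : ℕ) (z : Fin t) (A : Finset (Fin n)) :
    t ^ A.card * (univ.filter fun φ : Fin n → Fin t => ∀ a ∈ A, φ a = z).card = t ^ n := by
  classical
  have h1 : (univ.filter fun φ : Fin n → Fin t => ∀ a ∈ A, φ a = z) =
      Fintype.piFinset (fun x => if x ∈ A then ({z} : Finset (Fin t)) else univ) := by
    ext φ
    rw [mem_filter, Fintype.mem_piFinset]
    constructor
    · rintro ⟨-, h⟩ x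
      by_cases hx : x ∈ A
      · rw [if_pos hx, mem_singleton]
        exact h x hx
      · rw [if_neg hx]
        exact mem_univ _
    · intro h
      refine ⟨mem_univ _, fun a ha => ?_⟩
      have := h a
      rw [if_pos ha, mem_singleton] at this
      exact this
  rw [h1, Fintype.card_piFinset]
  have h2 : ∀ x : Fin n, (if x ∈ A then ({z} : Finset (Fin t)) else univ).card =
      if x ∈ A then 1 else t := by
    intro x
    split_ifs <;> simp
  simp only [h2]
  have h3 : t ^ A.card = ∏ x : Fin n, if x ∈ A then t else 1 := by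
    rw [prod_ite_mem, univ_inter, prod_const]
  rw [h3, ← prod_mul_distrib]
  have h4 : ∀ x : Fin n, (if x ∈ A then t else 1) * (if x ∈ A then 1 else t) = t := by
    intro x
    split_ifs <;> simp
  simp only [h4]
  rw [prod_const, card_univ, Fintype.card_fin]

/-- the pairs with both ends in `S` -/
def XS (X : Finset (Fin n × Fin n)) (S : Finset (Fin n)) : Finset (Fin n × Fin n) :=
  X.filter fun e => e.1 ∈ S ∧ e.2 ∈ S

/-- the zero set -/
def ZZ {t : ℕ} (z : Fin t) (φ : Fin n → Fin t) : Finset (Fin n) := univ.filter fun x => φ x = z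

lemma mem_ZZ {t : ℕ} (z : Fin t) (φ : Fin n → Fin t) (x : Fin n) : x ∈ ZZ z φ ↔ φ x = z := by
  unfold ZZ
  rw [mem_filter]
  simp

lemma count_pairs (t : ℕ) (z : Fin t) (X : Finset (Fin n × Fin n)) (hX : ∀ e ∈ X, e.1 < e.2) :
    t ^ 2 * ∑ φ : Fin n → Fin t, (XS X (ZZ z φ)).card = X.card * t ^ n := by
  classical
  have h1 : ∀ φ : Fin n → Fin t, (XS X (ZZ z φ)).card =
      ∑ e ∈ X, if (∀ a ∈ ({e.1, e.2} : Finset (Fin n)), φ a = z) then 1 else 0 := by
    intro φ
    unfold XS
    rw [card_filter]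
    refine sum_congr rfl fun e _ => ?_
    congr 1
    rw [mem_ZZ, mem_ZZ]
    simp
  simp only [h1]
  rw [sum_comm, mul_sum]
  rw [← smul_eq_mul (a := X.card), ← sum_const]
  refine sum_congr rfl fun e he => ?_
  rw [← card_filter]
  have h2 := count t z ({e.1, e.2} : Finset (Fin n))
  rw [card_pair (hX e he).ne] at h2
  exact h2

lemma count_pts (t : ℕ) (z : Fin t) :
    t * ∑ φ : Fin n → Fin t, (ZZ z φ).card = n * t ^ n := by
  classical
  have h1 : ∀ φ : Fin n → Fin t, (ZZ z φ).card =
      ∑ x : Fin n, if (∀ a ∈ ({x} : Finset (Fin n)), φ a = z) then 1 else 0 := by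
    intro φ
    unfold ZZ
    rw [card_filter]
    refine sum_congr rfl fun x _ => ?_
    simp
  simp only [h1]
  rw [sum_comm, mul_sum]
  have h0 : n * t ^ n = ∑ _x : Fin n, t ^ n := by
    rw [sum_const, card_univ, Fintype.card_fin, smul_eq_mul]
  rw [h0]
  refine sum_congr rfl fun x _ => ?_
  rw [← card_filter]
  have h2 := count t z ({x} : Finset (Fin n))
  rw [card_singleton, pow_one] at h2
  exact h2

lemma count_alt (t : ℕ) (z : Fin t) (X : Finset (Fin n × Fin n)) :
    t ^ 4 * ∑ φ : Fin n → Fin t, (altPairs (XS X (ZZ z φ))).card = (altPairs X).card * t ^ n := by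
  classical
  have h1 : ∀ φ : Fin n → Fin t, (altPairs (XS X (ZZ z φ))).card =
      ∑ x ∈ altPairs X, if (∀ a ∈ ({x.1.1, x.2.1, x.1.2, x.2.2} : Finset (Fin n)), φ a = z)
        then 1 else 0 := by
    intro φ
    rw [← card_filter]
    congr 1
    ext x
    unfold altPairs XS
    simp only [mem_filter, mem_product, mem_ZZ, mem_insert, mem_singleton, forall_eq_or_imp,
      forall_eq]
    tauto
  simp only [h1]
  rw [sum_comm, mul_sum]
  rw [← smul_eq_mul (a := (altPairs X).card), ← sum_const]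
  refine sum_congr rfl fun x hx => ?_
  rw [← card_filter]
  have h2 := count t z ({x.1.1, x.2.1, x.1.2, x.2.2} : Finset (Fin n))
  have h3 : ({x.1.1, x.2.1, x.1.2, x.2.2} : Finset (Fin n)).card = 4 := by
    unfold altPairs at hx
    rw [mem_filter] at hx
    obtain ⟨-, a1, a2, a3⟩ := hx
    rw [card_insert_of_notMem, card_insert_of_notMem, card_pair]
    · exact a3.ne
    · simp only [mem_insert, mem_singleton, not_or]
      exact ⟨a2.ne, (a2.trans a3).ne⟩
    · simp only [mem_insert, mem_singleton, not_or]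
      exact ⟨a1.ne, (a1.trans a2).ne, ((a1.trans a2).trans a3).ne⟩
  rw [h3] at h2
  exact h2

lemma key (X : Finset (Fin n × Fin n)) (hX : ∀ e ∈ X, e.1 < e.2) (t : ℕ) (ht : 1 ≤ t) :
    X.card * t ^ 2 ≤ (altPairs X).card + 2 * n * t ^ 3 := by
  classical
  let z : Fin t := ⟨0, ht⟩
  have h1 : ∑ φ : Fin n → Fin t, (XS X (ZZ z φ)).card ≤
      ∑ φ : Fin n → Fin t, (altPairs (XS X (ZZ z φ))).card +
        2 * ∑ φ : Fin n → Fin t, (ZZ z φ).card := by
    rw [mul_sum, ← sum_add_distrib]
    refine sum_le_sum fun φ _ => ?_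
    refine weak (ZZ z φ) _ (XS X (ZZ z φ)) rfl (fun e he => ?_) (fun e he => ?_)
    · exact hX e (mem_filter.1 he).1
    · exact (mem_filter.1 he).2
  have h2 := count_pairs t z X hX
  have h3 := count_alt t z X
  have h4 := count_pts (n := n) t z
  have h5 : t ^ 4 * ∑ φ : Fin n → Fin t, (XS X (ZZ z φ)).card ≤
      t ^ 4 * (∑ φ : Fin n → Fin t, (altPairs (XS X (ZZ z φ))).card +
        2 * ∑ φ : Fin n → Fin t, (ZZ z φ).card) := Nat.mul_le_mul_left _ h1
  have h6 : t ^ 4 * ∑ φ : Fin n → Fin t, (XS X (ZZ z φ)).card = (X.card * t ^ 2) * t ^ n := by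
    calc t ^ 4 * ∑ φ : Fin n → Fin t, (XS X (ZZ z φ)).card =
        t ^ 2 * (t ^ 2 * ∑ φ : Fin n → Fin t, (XS X (ZZ z φ)).card) := by ring
      _ = _ := by rw [h2]; ring
  have h7 : t ^ 4 * (∑ φ : Fin n → Fin t, (altPairs (XS X (ZZ z φ))).card +
        2 * ∑ φ : Fin n → Fin t, (ZZ z φ).card) =
      ((altPairs X).card + 2 * n * t ^ 3) * t ^ n := by
    calc _ = t ^ 4 * ∑ φ : Fin n → Fin t, (altPairs (XS X (ZZ z φ))).card +
        2 * t ^ 3 * (t * ∑ φ : Fin n → Fin t, (ZZ z φ).card) := by ring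
      _ = _ := by rw [h3, h4]; ring
  rw [h6, h7] at h5
  exact Nat.le_of_mul_le_mul_right h5 (pow_pos ht n)

theorem cross : S_cross := by
  intro n X hX
  set N := X.card with hN
  set I := (altPairs X).card with hI
  rcases (Nat.lt_or_ge (3 * n) N).symm with h | h
  · calc N ^ 3 ≤ (3 * n) ^ 3 := Nat.pow_le_pow_left h 3
      _ = 27 * n ^ 3 := by ring
      _ ≤ _ := Nat.le_add_left _ _
  · have hn : 0 < n := by
      rcases Nat.eq_zero_or_pos n with h0 | h0
      · exfalso
        subst h0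
        have : X.card = 0 := by
          rw [card_eq_zero]
          exact eq_empty_of_forall_notMem fun e _ => e.1.elim0
        omega
      · exact h0
    set t := N / (3 * n) with ht
    have h3n : 0 < 3 * n := by omega
    have h1 : 1 ≤ t := by
      rw [ht, Nat.one_le_div_iff h3n]
      omega
    have h2 : 3 * n * t ≤ N := Nat.mul_div_le N (3 * n)
    have h3 : N < 3 * n * (t + 1) := Nat.lt_mul_div_succ N h3n
    have h4 : N ≤ 6 * n * t := by nlinarith
    have h5 := key X hX t h1
    rw [← hN, ← hI] at h5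
    have h6 : N * t ^ 2 ≤ 3 * I := by
      have h7 : 3 * n * t * t ^ 2 ≤ N * t ^ 2 := Nat.mul_le_mul_right _ h2
      have h8 : 2 * n * t ^ 3 * 3 = 2 * (3 * n * t * t ^ 2) := by ring
      omega
    calc N ^ 3 = N * N ^ 2 := by ring
      _ ≤ N * (6 * n * t) ^ 2 := Nat.mul_le_mul_left _ (Nat.pow_le_pow_left h4 2)
      _ = 36 * n ^ 2 * (N * t ^ 2) := by ring
      _ ≤ 36 * n ^ 2 * (3 * I) := Nat.mul_le_mul_left _ h6
      _ = 108 * n ^ 2 * I := by ring
      _ ≤ _ := Nat.le_add_right _ _

end Pool.Agent.W64.RS
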